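import Pool.Agent.helper62.MS.SpecA
import Pool.Agent.helper62.RS.All

/-! Row REP (the reproducing formula) of project MS (MP_07c750_an). -/

set_option autoImplicit false

open scoped MatrixGroups ContDiff Topology UpperHalfPlane ComplexConjugate
open UpperHalfPlane MeasureTheory Filter Set

namespace Pool.Agent.MS

open Pool.Agent.RS

theorem REP_int (Γ : Subgroup SL(2, ℝ)) (F : Set ℍ) (hF : QU.NiceDom Γ F) (v : ℍ → ℂ) (hv : Continuous v) :
    IntegrableOn v F volume := by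
  obtain ⟨K, hK, hFK⟩ := hF.rel
  exact (hv.continuousOn.integrableOn_compact hK).mono_set hFK

theorem REP_proof (hGDU : GDU_stmt) (hGR2 : GR2_stmt) (hGWB : GWB_stmt) (hGYN : GYN_stmt) (hGBD : GBD_stmt)
    (hFL0 : FL0_stmt) : REP_stmt := by
  intro Γ F c r s φ hΓ hF hc hφ
  have hpk : Continuous (pk r c) ∧ HasCompactSupport (pk r c) := by
    have hpk := hFL0.2.1 (1 / 4) r c hc
    exact ⟨((QU.A_CA1 ℂ).1 (pk r c)).1 ((QU.A_CA1 ℂ).2.1 (pk r c) 0 ∞ (by exact_mod_cast bot_le) hpk.1), hpk.2⟩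
  have hφc : InvC Γ φ := ⟨((QU.A_CA1 ℂ).1 φ).1 ((QU.A_CA1 ℂ).2.1 φ 0 2 (by norm_num) hφ.1), hφ.2.1⟩
  have hbG : InvG Γ (Wf (pk r c) φ) := (hGWB Γ (pk r c) φ hΓ hpk.1 hpk.2 hφc).1
  have hbM : Measurable (Wf (pk r c) φ) := hbG.1.measurable
  have hbb : ∃ m : ℝ, ∀ g, ‖Wf (pk r c) φ g‖ ≤ m := (hGBD Γ ℂ (Wf (pk r c) φ) hΓ hbG).1
  have hf : Continuous (fun z => conj (pk r c z)) := Complex.continuous_conj.comp hpk.1
  have hfs : HasCompactSupport (fun z => conj (pk r c z)) := hpk.2.comp_left (map_zero _)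
  obtain ⟨h1, h2, -, -⟩ := hGDU Γ F (fun z => conj (pk r c z)) ((∫ z : ℍ, ‖conj (pk r c z)‖) ^ 2) hΓ hF hf hfs (sq_nonneg _)
    (fun u hu => hGYN Γ F _ u hΓ hF hf hfs hu) (Wf (pk r c) φ) (Wf (pk r c) φ) hbM hbM hbb hbb
  obtain ⟨d, hd⟩ : ∃ d : ℍ → ℂ, d = fun z => sy Γ F (fun z => conj (pk r c z)) (Wf (pk r c) φ) z - ((bk (cc c) r s : ℝ) : ℂ) * φ z :=
    ⟨_, rfl⟩
  have hdI : InvC Γ d := by
    refine ⟨?_, ?_⟩
    · rw [hd]
      exact h1.1.sub (continuous_const.mul hφc.1)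
    · intro γ z
      rw [hd]
      show sy Γ F (fun z => conj (pk r c z)) (Wf (pk r c) φ) (γ • z) - ((bk (cc c) r s : ℝ) : ℂ) * φ (γ • z) =
        sy Γ F (fun z => conj (pk r c z)) (Wf (pk r c) φ) z - ((bk (cc c) r s : ℝ) : ℂ) * φ z
      rw [h1.2 γ z, hφc.2 γ z]
  have key : ∀ u : ℍ → ℂ, InvC Γ u → ∫ z in F, d z * u z = 0 := by
    intro u hu
    have hub : InvC Γ (fun z => conj (u z)) := ⟨Complex.continuous_conj.comp hu.1, fun γ z => by
      show conj (u (γ • z)) = conj (u z)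
      rw [hu.2 γ z]⟩
    have e1 := h2 u hu
    have e2 := (hGR2 Γ F hΓ hF s φ hφ).1 c (fun z => conj (u z)) r hc hub
    have e3 : ∀ g, Wf (fun z => conj (pk r c z)) u g = conj (Wf (pk r c) (fun z => conj (u z)) g) := by
      intro g
      have h4 := (hGWB Γ (pk r c) (fun z => conj (u z)) hΓ hpk.1 hpk.2 hub).2.2 g
      rw [h4]
      refine integral_congr_ae (Eventually.of_forall fun z => ?_)
      show conj (pk r c z) * u (g • z) = conj (pk r c z) * conj (conj (u (g • z)))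
      rw [Complex.conj_conj]
    have e4 : ∫ z in F, φ z * conj (conj (u z)) = ∫ z in F, φ z * u z := by
      refine integral_congr_ae (Eventually.of_forall fun z => ?_)
      show φ z * conj (conj (u z)) = φ z * u z
      rw [Complex.conj_conj]
    have e5 : ∫ g in dG F, Wf (pk r c) φ g * Wf (fun z => conj (pk r c z)) u g ∂mG =
        (∫ z in F, φ z * u z) * ((bk (cc c) r s : ℝ) : ℂ) := by
      rw [← e4, ← e2]
      refine integral_congr_ae (Eventually.of_forall fun g => ?_)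
      show Wf (pk r c) φ g * Wf (fun z => conj (pk r c z)) u g =
        Wf (pk r c) φ g * conj (Wf (pk r c) (fun z => conj (u z)) g)
      rw [e3 g]
    have e6 : ∫ z in F, d z * u z = (∫ z in F, sy Γ F (fun z => conj (pk r c z)) (Wf (pk r c) φ) z * u z) -
        ((bk (cc c) r s : ℝ) : ℂ) * ∫ z in F, φ z * u z := by
      rw [← integral_const_mul, ← integral_sub]
      · refine integral_congr_ae (Eventually.of_forall fun z => ?_)
        show d z * u z = sy Γ F (fun z => conj (pk r c z)) (Wf (pk r c) φ) z * u z - ((bk (cc c) r s : ℝ) : ℂ) * (φ z * u z)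
        rw [hd]
        ring
      · exact REP_int Γ F hF _ (h1.1.mul hu.1)
      · exact REP_int Γ F hF _ (continuous_const.mul (hφc.1.mul hu.1))
    rw [e6, e1, e5]
    ring
  have hdb : InvC Γ (fun z => conj (d z)) := ⟨Complex.continuous_conj.comp hdI.1, fun γ z => by
    show conj (d (γ • z)) = conj (d z)
    rw [hdI.2 γ z]⟩
  have h5 : ∫ z in F, ‖d z‖ ^ 2 = 0 := by
    have h6 := key _ hdb
    have h7 : (∫ z in F, d z * conj (d z)) = ((∫ z in F, ‖d z‖ ^ 2 : ℝ) : ℂ) := by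
      rw [← integral_complex_ofReal]
      refine integral_congr_ae (Eventually.of_forall fun z => ?_)
      show d z * conj (d z) = ((‖d z‖ ^ 2 : ℝ) : ℂ)
      rw [Complex.mul_conj, Complex.normSq_eq_norm_sq]
    rw [h7] at h6
    exact_mod_cast h6
  have h8 : ∀ z, ‖d z‖ = 0 := by
    refine (QU.A_BDD Γ F (fun z => ‖d z‖) hΓ hF ⟨hdI.1.norm, fun γ z => ?_⟩).2.2.2 h5
    show ‖d (γ • z)‖ = ‖d z‖
    rw [hdI.2 γ z]
  intro z
  have h9 : d z = 0 := norm_eq_zero.1 (h8 z)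
  rw [hd] at h9
  exact sub_eq_zero.1 h9

end Pool.Agent.MS
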