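import Pool.Agent.helper57.MS.Spec2

set_option autoImplicit false

open Finset

namespace Pool.Agent.helper57.MS

open Pool.Agent.RRank Pool.Agent.helper26.IM

/-- the partition of `Fin 4` into a set and its complement -/
def TWO_part (A : Finset (Fin 4)) (h1 : A ≠ ∅) (h2 : Aᶜ ≠ ∅) : IndexPartition 4 where
  parts := {A, Aᶜ}
  supIndep := by
    revert h1 h2
    revert A
    decide
  sup_parts := by
    rw [Finset.sup_insert, Finset.sup_singleton, id, id]
    exact sup_compl_eq_top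
  bot_notMem := by
    intro h
    rcases Finset.mem_insert.1 h with h | h
    · exact h1 h.symm
    · exact h2 (Finset.mem_singleton.1 h).symm

theorem TWO_mem (A : Finset (Fin 4)) (h1 : A ≠ ∅) (h2 : Aᶜ ≠ ∅) : TWO_part A h1 h2 ∈ bipF A := by
  change ({A, Aᶜ} : Finset (Finset (Fin 4))) = ({A, Aᶜ} : Finset (Finset (Fin 4))).erase ∅
  rw [Finset.erase_eq_of_notMem]
  intro h
  rcases Finset.mem_insert.1 h with h | h
  · exact h1 h.symm
  · exact h2 (Finset.mem_singleton.1 h).symm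

/-- pull-back of one bipartition -/
theorem TWO_pull {d : ℕ} (φ : Fin d → Fin 4) (A : Finset (Fin 4)) (h1 : A ≠ ∅) (h2 : Aᶜ ≠ ∅) (I : Finset (Fin d))
    (hI : ∀ x, φ x ∈ A ↔ x ∈ I) (P : IndexPartition d) :
    (∃ P' ∈ bipF A, P.parts = (P'.parts.image (fun I => univ.filter (fun x => φ x ∈ I))).erase ∅) ↔ P ∈ bipF I := by
  have e1 : (univ.filter (fun x => φ x ∈ A)) = I := by
    ext x
    rw [Finset.mem_filter]
    exact ⟨fun h => (hI x).1 h.2, fun h => ⟨Finset.mem_univ x, (hI x).2 h⟩⟩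
  have e2 : (univ.filter (fun x => φ x ∈ Aᶜ)) = Iᶜ := by
    ext x
    rw [Finset.mem_filter, Finset.mem_compl, Finset.mem_compl, ← hI x]
    exact ⟨fun h => h.2, fun h => ⟨Finset.mem_univ x, h⟩⟩
  have key : ∀ P' ∈ bipF A, (P'.parts.image (fun I => univ.filter (fun x => φ x ∈ I))).erase ∅ =
      ({I, Iᶜ} : Finset (Finset (Fin d))).erase ∅ := by
    intro P' hP'
    have hp : P'.parts = ({A, Aᶜ} : Finset (Finset (Fin 4))).erase ∅ := hP'
    have hp2 : ({A, Aᶜ} : Finset (Finset (Fin 4))).erase ∅ = {A, Aᶜ} := by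
      rw [Finset.erase_eq_of_notMem]
      intro h
      rcases Finset.mem_insert.1 h with h | h
      · exact h1 h.symm
      · exact h2 (Finset.mem_singleton.1 h).symm
    rw [hp, hp2, Finset.image_insert, Finset.image_singleton, e1, e2]
  constructor
  · rintro ⟨P', hP', h⟩
    rw [key P' hP'] at h
    exact h
  · intro h
    refine ⟨TWO_part A h1 h2, TWO_mem A h1 h2, ?_⟩
    rw [key _ (TWO_mem A h1 h2)]
    exact h

theorem TWO (hTH3 : TH3_stmt) (hSS4 : SS4_stmt) (hBLK : BLK_stmt) : TWO_stmt := by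
  classical
  intro d hd 𝓚 I J
  set φ : Fin d → Fin 4 := fun x => if x ∈ I then (if x ∈ J then 3 else 2) else (if x ∈ J then 1 else 0) with hφ
  have h := hBLK d 4 hd φ 𝓚 R4 (hTH3 4 (by norm_num) 𝓚 R4 hSS4)
  have hset : pull φ R4 = bipF I ∪ bipF J := by
    ext P
    have hI : ∀ x, φ x ∈ ({2, 3} : Finset (Fin 4)) ↔ x ∈ I := by
      intro x
      rw [hφ]
      by_cases h1 : x ∈ I <;> by_cases h2 : x ∈ J <;> simp [h1, h2]
    have hJ : ∀ x, φ x ∈ ({1, 3} : Finset (Fin 4)) ↔ x ∈ J := by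
      intro x
      rw [hφ]
      by_cases h1 : x ∈ I <;> by_cases h2 : x ∈ J <;> simp [h1, h2]
    have k1 := TWO_pull φ {2, 3} (by decide) (by decide) I hI P
    have k2 := TWO_pull φ {1, 3} (by decide) (by decide) J hJ P
    rw [Set.mem_union, ← k1, ← k2]
    unfold pull R4
    constructor
    · rintro ⟨P', hP', h⟩
      rcases hP' with hP' | hP'
      · exact Or.inl ⟨P', hP', h⟩
      · exact Or.inr ⟨P', hP', h⟩
    · rintro (⟨P', hP', h⟩ | ⟨P', hP', h⟩)
      · exact ⟨P', Or.inl hP', h⟩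
      · exact ⟨P', Or.inr hP', h⟩
  rw [hset] at h
  exact h

end Pool.Agent.helper57.MS
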